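import Pool.Agent.VHF.Final

/-!
# Hyperbolicity is undecidable among automatic groups (MP_720b7c_al, Q1)

The definitions of the statement are in `Pool/Agent/VHG/Geom.lean` (word metric, thin triangles,
automatic structures) and `Pool/Agent/VHG/PresDefs.lean` (finite presentations as inputs, `DecidesHyp`).

Idea of the proof.  A finite set of square tiles with labelled sides which is deterministic at all four
corners gives a finite presentation (one relator of length four for each tile) of a group which is
automatic, and which is word-hyperbolic if the plane has no folded tiling (a tiling where rows and
columns may be reflected, with different tiles at both sides of a fold) and not word-hyperbolic if there are
arbitrarily large ordinary patches.  For a machine which stops or does not stop we construct such a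
tile set, with large patches if the machine does not stop, and without folded tilings of the plane if it
stops.
-/

set_option autoImplicit false

namespace Pool.Agent.Results.MP_720b7c_al.HyperbolicityUndecidable

open Pool.Agent.VHG

/-- there is no algorithm which decides word-hyperbolicity of automatic groups given by finite
presentations -/
theorem result : ¬ ∃ f : PresData →. Bool, Partrec f ∧ DecidesHyp f :=
  Pool.Agent.VHF.undecidable

end Pool.Agent.Results.MP_720b7c_al.HyperbolicityUndecidable
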